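import Mathlib

set_option autoImplicit false

open Filter Topology ZeroAtInfty

namespace Pool.Agent.BasisConst

/-- Tails of the weight sequence: `7/2, 5/2, 3/2, 1/2!, 1/3!, 1/4!, ...`. -/
noncomputable def T (n : ℕ) : ℝ :=
  if n < 3 then 7 / 2 - (n : ℝ) else 1 / ((n - 1).factorial : ℝ)

/-- The weights `w n = T n - T (n+1)`; the first three are equal to `1`. -/
noncomputable def w (n : ℕ) : ℝ := T n - T (n + 1)

lemma T_zero : T 0 = 7 / 2 := by simp [T]
lemma T_one : T 1 = 5 / 2 := by simp [T]; norm_num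
lemma T_two : T 2 = 3 / 2 := by simp [T]; norm_num
lemma T_three : T 3 = 1 / 2 := by simp [T]

lemma T_of_ge {n : ℕ} (h : 3 ≤ n) : T n = 1 / ((n - 1).factorial : ℝ) := by
  simp [T, Nat.not_lt.mpr h]

lemma T_succ_eq {n : ℕ} (h : 3 ≤ n) : T (n + 1) = T n / n := by
  rw [T_of_ge h, T_of_ge (by omega)]
  obtain ⟨k, rfl⟩ : ∃ k, n = k + 1 := ⟨n - 1, by omega⟩
  simp only [Nat.add_sub_cancel]
  rw [Nat.factorial_succ]
  have : ((k.factorial : ℝ)) ≠ 0 := by positivity
  push_cast
  field_simp

lemma T_pos (n : ℕ) : 0 < T n := by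
  unfold T
  split_ifs with h
  · have : (n : ℝ) ≤ 2 := by exact_mod_cast Nat.lt_succ_iff.mp h
    linarith
  · positivity

lemma w_zero : w 0 = 1 := by
  change T 0 - T 1 = 1
  rw [T_zero, T_one]; norm_num
lemma w_one : w 1 = 1 := by
  change T 1 - T 2 = 1
  rw [T_one, T_two]; norm_num
lemma w_two : w 2 = 1 := by
  change T 2 - T 3 = 1
  rw [T_two, T_three]; norm_num

lemma w_pos (n : ℕ) : 0 < w n := by
  rcases Nat.lt_or_ge n 3 with h | h
  · interval_cases n
    · rw [w_zero]; norm_num
    · rw [w_one]; norm_num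
    · rw [w_two]; norm_num
  · unfold w
    rw [T_succ_eq h]
    have hT := T_pos n
    have hn : (1 : ℝ) < n := by exact_mod_cast (by omega : 1 < n)
    have : T n / n < T n := by
      rw [div_lt_iff₀ (by linarith)]
      nlinarith
    linarith

lemma T_succ_lt (n : ℕ) : T (n + 1) < T n := by
  have := w_pos n
  unfold w at this
  linarith

lemma T_anti : Antitone T := antitone_nat_of_succ_le fun n => (T_succ_lt n).le

lemma T_strictAnti : StrictAnti T := strictAnti_nat_of_succ_lt fun n => T_succ_lt n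

lemma T_tendsto : Tendsto T atTop (𝓝 0) := by
  have h1 : Tendsto (fun n : ℕ => (1 : ℝ) / (n : ℝ)) atTop (𝓝 0) := tendsto_one_div_atTop_nhds_zero_nat
  have h2 : Tendsto (fun n : ℕ => (T 3) * (1 / (n : ℝ))) atTop (𝓝 0) := by
    simpa using h1.const_mul (T 3)
  rw [← tendsto_add_atTop_iff_nat 1]
  refine squeeze_zero' (Eventually.of_forall fun n => (T_pos _).le) ?_ h2
  filter_upwards [eventually_ge_atTop 3] with n hn
  rw [T_succ_eq hn, mul_one_div]
  have : T n ≤ T 3 := T_anti hn
  gcongr

lemma sum_w (n k : ℕ) : ∑ i ∈ Finset.range k, w (i + n) = T n - T (n + k) := by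
  induction k with
  | zero => simp
  | succ k ih =>
    rw [Finset.sum_range_succ, ih, w]
    rw [show k + n = n + k by ring, show n + (k + 1) = n + k + 1 by ring]
    ring

lemma hasSum_w (n : ℕ) : HasSum (fun i => w (i + n)) (T n) := by
  rw [hasSum_iff_tendsto_nat_of_nonneg (fun i => (w_pos _).le)]
  simp only [sum_w]
  have : Tendsto (fun k => T n - T (n + k)) atTop (𝓝 (T n - 0)) := by
    refine Tendsto.const_sub _ ?_
    have := (tendsto_add_atTop_iff_nat n).mpr T_tendsto
    simpa [add_comm] using this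
  simpa using this

lemma summable_w : Summable w := by
  have := (hasSum_w 0).summable
  simpa using this

/-- Small ratio of consecutive tails. -/
lemma T_ratio (ε : ℝ) (hε : 0 < ε) : ∃ N, ∀ n, T (max N n + 1) ≤ ε * T n := by
  obtain ⟨M, hM⟩ := exists_nat_gt (1 / ε)
  refine ⟨max M 3, fun n => ?_⟩
  have h3 : 3 ≤ max (max M 3) n := le_max_of_le_left (le_max_right _ _)
  rw [T_succ_eq h3]
  set m := max (max M 3) n with hm
  have hmM : M ≤ m := le_max_of_le_left (le_max_left _ _)
  have hMm : (1 / ε) < m := lt_of_lt_of_le hM (by exact_mod_cast hmM)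
  have hm0 : (0 : ℝ) < m := by exact_mod_cast (by omega : 0 < m)
  have hTm : T m ≤ T n := T_anti (le_max_right _ _)
  have hTm0 := T_pos m
  rw [div_le_iff₀ hm0]
  have h1 : 1 < ε * m := by
    rw [div_lt_iff₀ hε] at hMm
    linarith
  have hTn := T_pos n
  nlinarith

end Pool.Agent.BasisConst
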