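import Mathlib
import Pool.Agent.BasisConst.Weights

set_option autoImplicit false

open Filter Topology ZeroAtInfty

namespace Pool.Agent.BasisConst

/-! ### Coordinatewise facts about `C₀(ℕ, ℝ)` -/

lemma abs_coord_le (x : C₀(ℕ, ℝ)) (i : ℕ) : |x i| ≤ ‖x‖ := by
  rw [← ZeroAtInftyContinuousMap.norm_toBCF_eq_norm]
  exact BoundedContinuousFunction.norm_coe_le_norm x.toBCF i

lemma norm_le_of_coord (x : C₀(ℕ, ℝ)) {C : ℝ} (hC : 0 ≤ C) (h : ∀ i, |x i| ≤ C) : ‖x‖ ≤ C := by
  rw [← ZeroAtInftyContinuousMap.norm_toBCF_eq_norm]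
  exact (BoundedContinuousFunction.norm_le hC).mpr h

lemma coord_tendsto (x : C₀(ℕ, ℝ)) : Tendsto (fun i => x i) atTop (𝓝 0) := by
  have := x.zero_at_infty'
  rw [cocompact_eq_cofinite, Nat.cofinite_eq_atTop] at this
  exact this

/-- An element of `C₀(ℕ, ℝ)` from a null sequence. -/
def mkC (y : ℕ → ℝ) (h : Tendsto y atTop (𝓝 0)) : C₀(ℕ, ℝ) where
  toFun := y
  continuous_toFun := continuous_of_discreteTopology
  zero_at_infty' := by
    rw [cocompact_eq_cofinite, Nat.cofinite_eq_atTop]
    exact h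

@[simp] lemma mkC_apply (y : ℕ → ℝ) (h : Tendsto y atTop (𝓝 0)) (i : ℕ) : mkC y h i = y i := rfl

/-! ### The functional -/

lemma summable_shift (y : ℕ → ℝ) (C : ℝ) (hy : ∀ i, |y i| ≤ C) (n : ℕ) :
    Summable (fun i => w (i + n) * y (i + n)) := by
  refine Summable.of_norm_bounded (g := fun i => w (i + n) * C) ((hasSum_w n).summable.mul_right C) ?_
  intro i
  rw [Real.norm_eq_abs, abs_mul, abs_of_pos (w_pos _)]
  exact mul_le_mul_of_nonneg_left (hy _) (w_pos _).le

lemma abs_tail_le (y : ℕ → ℝ) (n : ℕ) (c : ℝ) (hy : ∀ i, n ≤ i → |y i| ≤ c) :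
    |∑' i, w (i + n) * y (i + n)| ≤ T n * c := by
  have h1 : Summable (fun i => w (i + n) * c) := (hasSum_w n).summable.mul_right c
  have h2 : ∑' i, w (i + n) * c = T n * c := by
    rw [tsum_mul_right, (hasSum_w n).tsum_eq]
  rw [← h2, ← Real.norm_eq_abs]
  refine tsum_of_norm_bounded h1.hasSum ?_
  intro i
  rw [Real.norm_eq_abs, abs_mul, abs_of_pos (w_pos _)]
  exact mul_le_mul_of_nonneg_left (hy _ (by omega)) (w_pos _).le

lemma split_sum (x : C₀(ℕ, ℝ)) (n : ℕ) :
    ∑' i, w i * x i = ∑ i ∈ Finset.range n, w i * x i + ∑' i, w (i + n) * x (i + n) := by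
  have := summable_shift (fun i => x i) ‖x‖ (abs_coord_le x) 0
  simp only [add_zero] at this
  exact (this.sum_add_tsum_nat_add n).symm

/-- The weighted-sum functional on `c₀`. -/
noncomputable def Phi : C₀(ℕ, ℝ) →L[ℝ] ℝ :=
  LinearMap.mkContinuous
    { toFun := fun x => ∑' i, w i * x i
      map_add' := by
        intro x y
        have hx := summable_shift (fun i => x i) ‖x‖ (abs_coord_le x) 0
        have hy := summable_shift (fun i => y i) ‖y‖ (abs_coord_le y) 0
        simp only [add_zero] at hx hy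
        rw [← hx.tsum_add hy]
        congr 1
        ext i
        simp [mul_add]
      map_smul' := by
        intro c x
        simp only [ZeroAtInftyContinuousMap.coe_smul, Pi.smul_apply, smul_eq_mul, RingHom.id_apply]
        rw [← tsum_mul_left]
        congr 1
        ext i
        ring }
    (T 0) (by
      intro x
      simp only [LinearMap.coe_mk, AddHom.coe_mk, Real.norm_eq_abs]
      have := abs_tail_le (fun i => x i) 0 ‖x‖ (fun i _ => abs_coord_le x i)
      simpa using this)

lemma Phi_apply (x : C₀(ℕ, ℝ)) : Phi x = ∑' i, w i * x i := rfl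

/-- The kernel of `Phi` as a submodule. -/
noncomputable def ESub : Submodule ℝ C₀(ℕ, ℝ) := LinearMap.ker (Phi : C₀(ℕ, ℝ) →ₗ[ℝ] ℝ)

/-- The Banach space: the kernel of `Phi`. -/
def E : Type := ESub

noncomputable instance : NormedAddCommGroup E := inferInstanceAs (NormedAddCommGroup ESub)
noncomputable instance : NormedSpace ℝ E := inferInstanceAs (NormedSpace ℝ ESub)

lemma complete_ESub : CompleteSpace ESub := by
  have : IsClosed (ESub : Set C₀(ℕ, ℝ)) :=
    ContinuousLinearMap.isClosed_ker Phi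
  exact this.completeSpace_coe

instance : CompleteSpace E := complete_ESub

/-- Coordinates of an element of `E`. -/
def co (x : E) (i : ℕ) : ℝ := x.1 i

@[simp] lemma co_add (x y : E) (i : ℕ) : co (x + y) i = co x i + co y i := rfl
@[simp] lemma co_sub (x y : E) (i : ℕ) : co (x - y) i = co x i - co y i := rfl
@[simp] lemma co_smul (c : ℝ) (x : E) (i : ℕ) : co (c • x) i = c * co x i := rfl
@[simp] lemma co_zero (i : ℕ) : co 0 i = 0 := rfl

lemma co_sum (s : Finset ℕ) (g : ℕ → E) (i : ℕ) :
    co (∑ j ∈ s, g j) i = ∑ j ∈ s, co (g j) i := by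
  classical
  induction s using Finset.induction_on with
  | empty => simp
  | insert a s ha ih => rw [Finset.sum_insert ha, Finset.sum_insert ha, co_add, ih]

lemma abs_co_le (x : E) (i : ℕ) : |co x i| ≤ ‖x‖ := abs_coord_le x.1 i

lemma norm_le_of_co (x : E) {C : ℝ} (hC : 0 ≤ C) (h : ∀ i, |co x i| ≤ C) : ‖x‖ ≤ C :=
  norm_le_of_coord x.1 hC h

lemma co_tendsto (x : E) : Tendsto (co x) atTop (𝓝 0) := coord_tendsto x.1

lemma co_ext {x y : E} (h : ∀ i, co x i = co y i) : x = y := by
  apply Subtype.ext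
  ext i
  exact h i

/-- The defining relation, split at `n`. -/
lemma relation (x : E) (n : ℕ) :
    ∑ i ∈ Finset.range n, w i * co x i + ∑' i, w (i + n) * co x (i + n) = 0 := by
  have h1 : Phi x.1 = 0 := x.2
  rw [Phi_apply, split_sum x.1 n] at h1
  exact h1

/-- Build an element of `E` from a finitely supported sequence with zero weighted sum. -/
noncomputable def mkE (y : ℕ → ℝ) (M : ℕ) (hM : ∀ i, M ≤ i → y i = 0)
    (h0 : ∑ i ∈ Finset.range M, w i * y i = 0) : E :=
  ⟨mkC y (tendsto_const_nhds.congr' (by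
      filter_upwards [eventually_ge_atTop M] with i hi
      exact (hM i hi).symm)), by
    change Phi _ = 0
    rw [Phi_apply, tsum_eq_sum (s := Finset.range M)]
    · exact h0
    · intro i hi
      simp only [Finset.mem_range, not_lt] at hi
      simp [hM i hi]⟩

@[simp] lemma co_mkE (y : ℕ → ℝ) (M : ℕ) (hM : ∀ i, M ≤ i → y i = 0)
    (h0 : ∑ i ∈ Finset.range M, w i * y i = 0) (i : ℕ) : co (mkE y M hM h0) i = y i := rfl

end Pool.Agent.BasisConst
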