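import Mathlib
import Pool.Agent.BasisConst.Space

set_option autoImplicit false

open Filter Topology ZeroAtInfty

namespace Pool.Agent.BasisConst

/-- The value taken by the `n`-th basis vector after position `n`. -/
noncomputable def beta (N n : ℕ) : ℝ := -(w n / (T (n + 1) - T (max N (n + 1) + 1)))

/-- The `n`-th basis vector as a sequence. -/
noncomputable def bseq (N n i : ℕ) : ℝ :=
  if i < n then 0 else if i = n then 1 else if i ≤ max N (n + 1) then beta N n else 0

lemma bseq_lt {N n i : ℕ} (h : i < n) : bseq N n i = 0 := by simp [bseq, h]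
lemma bseq_self (N n : ℕ) : bseq N n n = 1 := by simp [bseq]
lemma bseq_mid {N n i : ℕ} (h : n < i) (h' : i ≤ max N (n + 1)) : bseq N n i = beta N n := by
  rw [bseq, if_neg (by omega), if_neg (by omega), if_pos h']
lemma bseq_far {N n i : ℕ} (h : max N (n + 1) < i) : bseq N n i = 0 := by
  have : n + 1 ≤ max N (n + 1) := le_max_right _ _
  rw [bseq, if_neg (by omega), if_neg (by omega), if_neg (by omega)]

lemma denom_pos {a b : ℕ} (h : a < b) : 0 < T a - T b := by
  have := T_strictAnti h
  linarith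

lemma bseq_sum (N n : ℕ) :
    ∑ i ∈ Finset.range (max N (n + 1) + 1), w i * bseq N n i = 0 := by
  set L := max N (n + 1) with hL
  have hnL : n + 1 ≤ L := le_max_right _ _
  obtain ⟨k, hk⟩ : ∃ k, L + 1 = (n + 1) + k := ⟨L - n, by omega⟩
  rw [hk, Finset.sum_range_add, Finset.sum_range_succ]
  have h1 : ∑ i ∈ Finset.range n, w i * bseq N n i = 0 := by
    apply Finset.sum_eq_zero
    intro i hi
    rw [bseq_lt (Finset.mem_range.mp hi), mul_zero]
  have h2 : ∑ x ∈ Finset.range k, w (n + 1 + x) * bseq N n (n + 1 + x)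
      = (∑ x ∈ Finset.range k, w (x + (n + 1))) * beta N n := by
    rw [Finset.sum_mul]
    apply Finset.sum_congr rfl
    intro x hx
    have := Finset.mem_range.mp hx
    rw [bseq_mid (by omega) (by omega), show n + 1 + x = x + (n + 1) by ring]
  rw [h1, h2, sum_w, bseq_self, ← hk, beta, ← hL]
  have : T (n + 1) - T (L + 1) ≠ 0 := (denom_pos (by omega)).ne'
  field_simp
  ring

/-- The `n`-th basis vector. -/
noncomputable def b (N n : ℕ) : E :=
  mkE (bseq N n) (max N (n + 1) + 1) (fun _ hi => bseq_far (by omega)) (bseq_sum N n)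

@[simp] lemma co_b (N n i : ℕ) : co (b N n) i = bseq N n i := rfl

lemma b_tail {N j m i : ℕ} (hjm : j < m) (hmi : m ≤ i) :
    bseq N j i = if i ≤ max N m then bseq N j m else 0 := by
  rcases Nat.lt_or_ge N m with h | h
  · rcases Nat.eq_or_lt_of_le hmi with rfl | h'
    · simp
    · rw [if_neg (by omega), bseq_far (by omega)]
  · split_ifs with h1
    · rw [bseq_mid (by omega) (by omega), bseq_mid (by omega) (by omega)]
    · rw [bseq_far (by omega)]

/-- Partial sums. -/
noncomputable def S (N : ℕ) (a : ℕ → ℝ) (n : ℕ) : E := ∑ i ∈ Finset.range n, a i • b N i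

lemma co_S (N : ℕ) (a : ℕ → ℝ) (n i : ℕ) :
    co (S N a n) i = ∑ j ∈ Finset.range n, a j * bseq N j i := by
  rw [S, co_sum]
  rfl

lemma S_tail (N : ℕ) (a : ℕ → ℝ) {m i : ℕ} (hmi : m ≤ i) :
    co (S N a m) i = if i ≤ max N m then co (S N a m) m else 0 := by
  rw [co_S, co_S]
  split_ifs with h
  · apply Finset.sum_congr rfl
    intro j hj
    rw [b_tail (Finset.mem_range.mp hj) hmi, if_pos h]
  · apply Finset.sum_eq_zero
    intro j hj
    rw [b_tail (Finset.mem_range.mp hj) hmi, if_neg h, mul_zero]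

lemma S_stable (N : ℕ) (a : ℕ → ℝ) {m n i : ℕ} (hmn : m ≤ n) (him : i < m) :
    co (S N a n) i = co (S N a m) i := by
  rw [co_S, co_S]
  obtain ⟨k, rfl⟩ : ∃ k, n = m + k := ⟨n - m, by omega⟩
  rw [Finset.sum_range_add]
  have : ∑ x ∈ Finset.range k, a (m + x) * bseq N (m + x) i = 0 := by
    apply Finset.sum_eq_zero
    intro x _
    rw [bseq_lt (by omega), mul_zero]
  rw [this, add_zero]

/-- Key estimate on the constant tail value. -/
lemma tail_value {N : ℕ} {ε : ℝ} (hε1 : ε < 1)
    (hN : ∀ n, T (max N n + 1) ≤ ε * T n) (x y : E) (m : ℕ) (c : ℝ)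
    (h1 : ∀ i, i < m → co y i = co x i)
    (h2 : ∀ i, m ≤ i → co y i = if i ≤ max N m then co y m else 0)
    (hc : ∀ i, m ≤ i → |co x i| ≤ c) :
    |co y m| ≤ (1 / (1 - ε)) * c := by
  have hx := relation x m
  have hy := relation y m
  have hs : ∑ i ∈ Finset.range m, w i * co y i = ∑ i ∈ Finset.range m, w i * co x i := by
    apply Finset.sum_congr rfl
    intro i hi
    rw [h1 i (Finset.mem_range.mp hi)]
  have hty : ∑' i, w (i + m) * co y (i + m) = (T m - T (max N m + 1)) * co y m := by
    set L := max N m with hL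
    have hmL : m ≤ L := le_max_right _ _
    obtain ⟨k, hk⟩ : ∃ k, L + 1 = m + k := ⟨L + 1 - m, by omega⟩
    rw [tsum_eq_sum (s := Finset.range k)]
    · rw [hk, ← sum_w, Finset.sum_mul]
      apply Finset.sum_congr rfl
      intro i hi
      have := Finset.mem_range.mp hi
      rw [h2 _ (by omega), if_pos (by omega)]
    · intro i hi
      simp only [Finset.mem_range, not_lt] at hi
      rw [h2 _ (by omega), if_neg (by omega), mul_zero]
  have htx := abs_tail_le (co x) m c hc
  rw [hty, hs] at hy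
  have key : (T m - T (max N m + 1)) * co y m = ∑' i, w (i + m) * co x (i + m) := by linarith
  have hTm := T_pos m
  have hN' := hN m
  have hd : (1 - ε) * T m ≤ T m - T (max N m + 1) := by linarith
  have h1ε : 0 < 1 - ε := by linarith
  have hd0 : 0 < T m - T (max N m + 1) := lt_of_lt_of_le (by positivity) hd
  have : (T m - T (max N m + 1)) * |co y m| ≤ T m * c := by
    rw [← abs_of_pos hd0, ← abs_mul, key]
    exact htx
  have h3 : (1 - ε) * T m * |co y m| ≤ T m * c :=
    le_trans (mul_le_mul_of_nonneg_right hd (abs_nonneg _)) this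
  have h4 : (1 - ε) * |co y m| ≤ c := by
    have : T m * ((1 - ε) * |co y m|) ≤ T m * c := by linarith
    exact le_of_mul_le_mul_left this hTm
  rw [one_div, ← div_eq_inv_mul, le_div_iff₀ h1ε]
  linarith

lemma S_mono {N : ℕ} {ε : ℝ} (hε0 : 0 < ε) (hε1 : ε < 1)
    (hN : ∀ n, T (max N n + 1) ≤ ε * T n) (a : ℕ → ℝ) {m n : ℕ} (hmn : m ≤ n) :
    ‖S N a m‖ ≤ (1 / (1 - ε)) * ‖S N a n‖ := by
  have h1ε : 0 < 1 - ε := by linarith
  have hK : 1 ≤ 1 / (1 - ε) := by
    rw [le_div_iff₀ h1ε]; linarith
  have htail := tail_value hε1 hN (S N a n) (S N a m) m ‖S N a n‖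
    (fun i hi => (S_stable N a hmn hi).symm) (fun i hi => S_tail N a hi)
    (fun i _ => abs_co_le _ i)
  apply norm_le_of_co _ (by positivity)
  intro i
  rcases Nat.lt_or_ge i m with h | h
  · rw [← S_stable N a hmn h]
    have := abs_co_le (S N a n) i
    have h0 := norm_nonneg (S N a n)
    nlinarith
  · rw [S_tail N a h]
    split_ifs
    · exact htail
    · simp only [abs_zero]; positivity

/-- Coefficients of the expansion of `x`, through the partial sums. -/
noncomputable def Srec (N : ℕ) (x : E) : ℕ → E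
  | 0 => 0
  | n + 1 => Srec N x n + (co x n - co (Srec N x n) n) • b N n

/-- The coefficients. -/
noncomputable def coef (N : ℕ) (x : E) (n : ℕ) : ℝ := co x n - co (Srec N x n) n

lemma S_coef (N : ℕ) (x : E) (n : ℕ) : S N (coef N x) n = Srec N x n := by
  induction n with
  | zero => simp [S, Srec]
  | succ n ih =>
    rw [S, Finset.sum_range_succ, ← S, ih]
    rfl

lemma Srec_co (N : ℕ) (x : E) (n i : ℕ) (h : i < n) : co (Srec N x n) i = co x i := by
  induction n with
  | zero => omega
  | succ n ih =>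
    rw [Srec, co_add, co_smul, co_b]
    rcases Nat.lt_succ_iff_lt_or_eq.mp h with h' | rfl
    · rw [ih h', bseq_lt h', mul_zero, add_zero]
    · rw [bseq_self]; ring

lemma S_tendsto {N : ℕ} {ε : ℝ} (hε0 : 0 < ε) (hε1 : ε < 1)
    (hN : ∀ n, T (max N n + 1) ≤ ε * T n) (x : E) :
    Tendsto (fun n => S N (coef N x) n) atTop (𝓝 x) := by
  have h1ε : 0 < 1 - ε := by linarith
  rw [Metric.tendsto_atTop]
  intro δ hδ
  have hx := co_tendsto x
  rw [Metric.tendsto_atTop] at hx
  set K := 1 / (1 - ε) with hKdef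
  have hK : 0 < K := by positivity
  obtain ⟨M, hM⟩ := hx (δ / (2 * (K + 1))) (by positivity)
  refine ⟨M, fun n hn => ?_⟩
  set c := δ / (2 * (K + 1)) with hc
  have hc0 : 0 < c := by positivity
  have hxc : ∀ i, n ≤ i → |co x i| ≤ c := by
    intro i hi
    have := hM i (by omega)
    rw [Real.dist_eq, sub_zero] at this
    exact this.le
  have h1 : ∀ i, i < n → co (S N (coef N x) n) i = co x i := by
    intro i hi
    rw [S_coef, Srec_co N x n i hi]
  have htail := tail_value hε1 hN x (S N (coef N x) n) n c h1 (fun i hi => S_tail N _ hi) hxc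
  rw [dist_eq_norm]
  have : ‖S N (coef N x) n - x‖ ≤ (K + 1) * c := by
    apply norm_le_of_co _ (by positivity)
    intro i
    rw [co_sub]
    rcases Nat.lt_or_ge i n with h | h
    · rw [h1 i h, sub_self, abs_zero]; positivity
    · rw [S_tail N _ h]
      split_ifs
      · calc |co (S N (coef N x) n) n - co x i| ≤ |co (S N (coef N x) n) n| + |co x i| := abs_sub _ _
          _ ≤ K * c + c := add_le_add htail (hxc i h)
          _ = (K + 1) * c := by ring
      · rw [zero_sub, abs_neg]
        calc |co x i| ≤ c := hxc i h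
          _ ≤ (K + 1) * c := by nlinarith
  calc ‖S N (coef N x) n - x‖ ≤ (K + 1) * c := this
    _ = δ / 2 := by rw [hc]; field_simp
    _ < δ := by linarith

/-- For every `ε ∈ (0,1)` the space `E` has a basis with constant at most `1/(1-ε)`. -/
theorem good_basis (ε : ℝ) (hε0 : 0 < ε) (hε1 : ε < 1) :
    ∃ f : ℕ → E,
      (∀ x : E, ∃! b : ℕ → ℝ,
        Tendsto (fun k : ℕ => ∑ i ∈ Finset.range k, b i • f i) atTop (𝓝 x)) ∧
      ∀ (b : ℕ → ℝ) (p q : ℕ), p ≤ q →
        ‖∑ i ∈ Finset.range p, b i • f i‖ ≤ (1 / (1 - ε)) * ‖∑ i ∈ Finset.range q, b i • f i‖ := by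
  obtain ⟨N, hN⟩ := T_ratio ε hε0
  refine ⟨b N, fun x => ⟨coef N x, S_tendsto hε0 hε1 hN x, ?_⟩, fun a p q hpq => S_mono hε0 hε1 hN a hpq⟩
  intro a ha
  have h0 : Tendsto (fun k : ℕ => ‖S N (fun i => a i - coef N x i) k‖) atTop (𝓝 0) := by
    have h1 := (Tendsto.sub ha (S_tendsto hε0 hε1 hN x)).norm
    simp only [sub_self, norm_zero] at h1
    refine h1.congr fun k => ?_
    congr 1
    rw [S, S, ← Finset.sum_sub_distrib]
    apply Finset.sum_congr rfl
    intro i _
    rw [sub_smul]
  have h2 : ∀ m, S N (fun i => a i - coef N x i) m = 0 := by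
    intro m
    rw [← norm_le_zero_iff]
    have h3 : Tendsto (fun k : ℕ => (1 / (1 - ε)) * ‖S N (fun i => a i - coef N x i) k‖) atTop
        (𝓝 ((1 / (1 - ε)) * 0)) := h0.const_mul _
    rw [mul_zero] at h3
    refine ge_of_tendsto h3 ?_
    filter_upwards [eventually_ge_atTop m] with k hk
    exact S_mono hε0 hε1 hN _ hk
  ext m
  have h4 := h2 (m + 1)
  rw [S, Finset.sum_range_succ, ← S, h2 m, zero_add] at h4
  have h5 : co ((a m - coef N x m) • b N m) m = 0 := by rw [h4]; rfl
  rw [co_smul, co_b, bseq_self, mul_one] at h5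
  linarith

end Pool.Agent.BasisConst
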