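import Mathlib
import Pool.Agent.BasisConst.Space

set_option autoImplicit false

open Filter Topology ZeroAtInfty

namespace Pool.Agent.BasisConst

variable {e : ℕ → E}

/-- Monotone basic inequality. -/
def Mono (e : ℕ → E) : Prop := ∀ (a : ℕ → ℝ) (m n : ℕ), m ≤ n →
  ‖∑ i ∈ Finset.range m, a i • e i‖ ≤ ‖∑ i ∈ Finset.range n, a i • e i‖

lemma coef_bound (hm : Mono e) (a : ℕ → ℝ) {j n : ℕ} (hj : j < n) :
    |a j| * ‖e j‖ ≤ 2 * ‖∑ i ∈ Finset.range n, a i • e i‖ := by
  have h1 := hm a (j + 1) n hj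
  have h2 := hm a j n hj.le
  have h3 : a j • e j = ∑ i ∈ Finset.range (j + 1), a i • e i - ∑ i ∈ Finset.range j, a i • e i := by
    rw [Finset.sum_range_succ]; abel
  calc |a j| * ‖e j‖ = ‖a j • e j‖ := by rw [norm_smul, Real.norm_eq_abs]
    _ ≤ ‖∑ i ∈ Finset.range (j + 1), a i • e i‖ + ‖∑ i ∈ Finset.range j, a i • e i‖ := by
        rw [h3]; exact norm_sub_le _ _
    _ ≤ _ := by linarith

lemma exists_tail (hm : Mono e) (hne : ∀ j, e j ≠ 0) (n : ℕ) :
    ∃ N, ∀ (a : ℕ → ℝ) (i : ℕ), N ≤ i →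
      |co (∑ j ∈ Finset.range n, a j • e j) i| ≤ ‖∑ j ∈ Finset.range n, a j • e j‖ / 2 := by
  have h1 : Tendsto (fun i => ∑ j ∈ Finset.range n, (2 / ‖e j‖) * |co (e j) i|) atTop
      (𝓝 (∑ j ∈ Finset.range n, (2 / ‖e j‖) * |(0 : ℝ)|)) := by
    apply tendsto_finsetSum
    intro j _
    exact ((co_tendsto (e j)).abs).const_mul _
  simp only [abs_zero, mul_zero, Finset.sum_const_zero] at h1
  rw [Metric.tendsto_atTop] at h1
  obtain ⟨N, hN⟩ := h1 (1 / 2) (by norm_num)
  refine ⟨N, fun a i hi => ?_⟩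
  have h2 := hN i hi
  rw [Real.dist_eq, sub_zero] at h2
  have h3 := (abs_lt.mp h2).2
  set y := ∑ j ∈ Finset.range n, a j • e j with hy
  rw [hy, co_sum]
  calc |∑ j ∈ Finset.range n, co (a j • e j) i| ≤ ∑ j ∈ Finset.range n, |co (a j • e j) i| :=
        Finset.abs_sum_le_sum_abs _ _
    _ ≤ ∑ j ∈ Finset.range n, ‖y‖ * ((2 / ‖e j‖) * |co (e j) i|) := by
        apply Finset.sum_le_sum
        intro j hj
        rw [co_smul, abs_mul, ← mul_assoc]
        apply mul_le_mul_of_nonneg_right _ (abs_nonneg _)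
        have hb := coef_bound hm a (Finset.mem_range.mp hj)
        have hpos : 0 < ‖e j‖ := norm_pos_iff.mpr (hne j)
        rw [mul_div_assoc', le_div_iff₀ hpos]
        linarith
    _ = ‖y‖ * ∑ j ∈ Finset.range n, (2 / ‖e j‖) * |co (e j) i| := by rw [Finset.mul_sum]
    _ ≤ ‖y‖ * (1 / 2) := mul_le_mul_of_nonneg_left h3.le (norm_nonneg _)
    _ = ‖y‖ / 2 := by ring

lemma proj_scaled (hm : Mono e) (a : ℕ → ℝ) (u : E)
    (hu : Tendsto (fun k : ℕ => ∑ i ∈ Finset.range k, a i • e i) atTop (𝓝 u)) (n : ℕ) (s : ℝ)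
    (hs : 0 ≤ s) :
    (s + 1) * ‖∑ i ∈ Finset.range n, a i • e i‖ ≤ ‖s • (∑ i ∈ Finset.range n, a i • e i) + u‖ := by
  set y := ∑ i ∈ Finset.range n, a i • e i with hy
  set c : ℕ → ℝ := fun j => if j < n then (s + 1) * a j else a j with hc
  have h1 : ∀ k, n ≤ k → ∑ i ∈ Finset.range k, c i • e i = s • y + ∑ i ∈ Finset.range k, a i • e i := by
    intro k hk
    obtain ⟨l, rfl⟩ : ∃ l, k = n + l := ⟨k - n, by omega⟩
    rw [Finset.sum_range_add, Finset.sum_range_add, ← add_assoc]
    congr 1
    · rw [← hy, hy, Finset.smul_sum, ← Finset.sum_add_distrib]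
      apply Finset.sum_congr rfl
      intro i hi
      simp only [hc, if_pos (Finset.mem_range.mp hi)]
      rw [add_mul, one_mul, add_smul, mul_smul]
    · apply Finset.sum_congr rfl
      intro i _
      simp only [hc, if_neg (by omega : ¬ (n + i < n))]
  have h2 : ∑ i ∈ Finset.range n, c i • e i = (s + 1) • y := by
    rw [h1 n le_rfl, ← hy, add_smul, one_smul]
  have h3 : Tendsto (fun k : ℕ => ‖∑ i ∈ Finset.range k, c i • e i‖) atTop (𝓝 ‖s • y + u‖) := by
    refine Tendsto.congr' ?_ ((hu.const_add (s • y)).norm)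
    filter_upwards [eventually_ge_atTop n] with k hk
    rw [h1 k hk]
  have h4 : ‖(s + 1) • y‖ ≤ ‖s • y + u‖ := by
    refine ge_of_tendsto h3 ?_
    filter_upwards [eventually_ge_atTop n] with k hk
    rw [← h2]
    exact hm c n k hk
  rw [norm_smul, Real.norm_eq_abs, abs_of_nonneg (by linarith)] at h4
  exact h4

/-- The partial-sum projections only see finitely many coordinates. -/
lemma key_bound (hm : Mono e) (hne : ∀ j, e j ≠ 0) (n : ℕ) :
    ∃ N, ∀ (a : ℕ → ℝ) (u : E) (r : ℝ), 0 ≤ r →
      Tendsto (fun k : ℕ => ∑ i ∈ Finset.range k, a i • e i) atTop (𝓝 u) →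
      (∀ i, i < N → |co u i| ≤ r) → ‖∑ i ∈ Finset.range n, a i • e i‖ ≤ r := by
  obtain ⟨N, hN⟩ := exists_tail hm hne n
  refine ⟨N, fun a u r hr hu hur => ?_⟩
  set y := ∑ i ∈ Finset.range n, a i • e i with hy
  rcases (norm_nonneg y).eq_or_lt with h0 | h0
  · rw [← h0]; exact hr
  set s := 2 * ‖u‖ / ‖y‖ with hs
  have hs0 : 0 ≤ s := by positivity
  have h1 := proj_scaled hm a u hu n s hs0
  rw [← hy] at h1
  have h2 : ‖s • y + u‖ ≤ s * ‖y‖ + r := by
    apply norm_le_of_co _ (by positivity)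
    intro i
    rw [co_add, co_smul]
    rcases Nat.lt_or_ge i N with h | h
    · calc |s * co y i + co u i| ≤ |s * co y i| + |co u i| := abs_add_le _ _
        _ ≤ s * ‖y‖ + r := by
          rw [abs_mul, abs_of_nonneg hs0]
          exact add_le_add (mul_le_mul_of_nonneg_left (abs_co_le y i) hs0) (hur i h)
    · have h3 := hN a i h
      rw [← hy] at h3
      have h4 : ‖u‖ = s * (‖y‖ / 2) := by
        rw [hs]; field_simp
      calc |s * co y i + co u i| ≤ |s * co y i| + |co u i| := abs_add_le _ _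
        _ ≤ s * (‖y‖ / 2) + ‖u‖ := by
          rw [abs_mul, abs_of_nonneg hs0]
          exact add_le_add (mul_le_mul_of_nonneg_left h3 hs0) (abs_co_le u i)
        _ = s * ‖y‖ := by rw [h4]; ring
        _ ≤ s * ‖y‖ + r := by linarith
  nlinarith

/-- The three test vectors: `4/3` at position `k`, `-2/3` at the two other positions `< 3`. -/
noncomputable def cseq (k i : ℕ) : ℝ := if i < 3 then (if i = k then 4 / 3 else -(2 / 3)) else 0

lemma cseq_sum (k : ℕ) (hk : k < 3) : ∑ i ∈ Finset.range 3, w i * cseq k i = 0 := by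
  simp only [Finset.sum_range_succ, Finset.sum_range_zero, w_zero, w_one, w_two, cseq]
  interval_cases k <;> norm_num

/-- Test vector as an element of `E`. -/
noncomputable def cvec (k : ℕ) (hk : k < 3) : E :=
  mkE (cseq k) 3 (fun i hi => by simp [cseq, Nat.not_lt.mpr hi]) (cseq_sum k hk)

/-- The almost common point of the three unit balls, corrected at position `M`. -/
noncomputable def useq (M i : ℕ) : ℝ := if i < 3 then 1 / 3 else if i = M then -(1 / w M) else 0

lemma useq_sum (M : ℕ) (hM : 3 ≤ M) : ∑ i ∈ Finset.range (M + 1), w i * useq M i = 0 := by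
  rw [Finset.sum_range_succ]
  obtain ⟨k, rfl⟩ : ∃ k, M = 3 + k := ⟨M - 3, by omega⟩
  rw [Finset.sum_range_add]
  have h1 : ∑ x ∈ Finset.range k, w (3 + x) * useq (3 + k) (3 + x) = 0 := by
    apply Finset.sum_eq_zero
    intro x hx
    have := Finset.mem_range.mp hx
    rw [useq, if_neg (by omega), if_neg (by omega), mul_zero]
  have h2 : ∑ i ∈ Finset.range 3, w i * useq (3 + k) i = 1 := by
    simp only [Finset.sum_range_succ, Finset.sum_range_zero, w_zero, w_one, w_two, useq]
    norm_num
  rw [h1, h2, useq, if_neg (by omega), if_pos rfl]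
  have := (w_pos (3 + k)).ne'
  field_simp
  ring

/-- The corrected point as an element of `E`. -/
noncomputable def uvec (M : ℕ) (hM : 3 ≤ M) : E :=
  mkE (useq M) (M + 1) (fun i hi => by
    rw [useq, if_neg (by omega), if_neg (by omega)]) (useq_sum M hM)

/-- `E` has no monotone basis. -/
theorem no_monotone_basis (e : ℕ → E)
    (hb : ∀ x : E, ∃! a : ℕ → ℝ,
      Tendsto (fun n : ℕ => ∑ i ∈ Finset.range n, a i • e i) atTop (𝓝 x)) (hm : Mono e) : False := by
  classical
  -- basis vectors are nonzero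
  have hne : ∀ j, e j ≠ 0 := by
    intro j hj
    obtain ⟨a, ha, hau⟩ := hb 0
    have h1 := hau (fun _ => 0) (by simp)
    have h2 := hau (fun i => if i = j then 1 else 0) (by
      have : ∀ n : ℕ, ∑ i ∈ Finset.range n, (if i = j then (1 : ℝ) else 0) • e i = 0 := by
        intro n
        apply Finset.sum_eq_zero
        intro i _
        split_ifs with h
        · rw [h, hj, smul_zero]
        · rw [zero_smul]
      simp only [this]
      exact tendsto_const_nhds)
    have h3 := congrFun (h1.trans h2.symm) j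
    simp at h3
  -- expansions of the test vectors
  choose A hA using fun x => (hb x).exists
  -- choose n
  have hconv : ∀ k (hk : k < 3), ∃ n0, ∀ n, n0 ≤ n →
      ‖∑ i ∈ Finset.range n, A (cvec k hk) i • e i - cvec k hk‖ ≤ 1 / 10 := by
    intro k hk
    have := hA (cvec k hk)
    rw [Metric.tendsto_atTop] at this
    obtain ⟨n0, hn0⟩ := this (1 / 10) (by norm_num)
    refine ⟨n0, fun n hn => ?_⟩
    have := hn0 n hn
    rw [dist_eq_norm] at this
    exact this.le
  obtain ⟨n0, hn0⟩ := hconv 0 (by norm_num)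
  obtain ⟨n1, hn1⟩ := hconv 1 (by norm_num)
  obtain ⟨n2, hn2⟩ := hconv 2 (by norm_num)
  set n := max n0 (max n1 n2) with hn
  obtain ⟨N, hN⟩ := key_bound hm hne n
  have hM3 : 3 ≤ max N 3 := le_max_right _ _
  set u : E := uvec (max N 3) hM3 with hu
  set p : E := ∑ i ∈ Finset.range n, A u i • e i with hp
  -- distance of p to the partial sums of the test vectors
  have hdist : ∀ k (hk : k < 3), ‖p - ∑ i ∈ Finset.range n, A (cvec k hk) i • e i‖ ≤ 1 := by
    intro k hk
    have h1 : p - ∑ i ∈ Finset.range n, A (cvec k hk) i • e i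
        = ∑ i ∈ Finset.range n, (A u i - A (cvec k hk) i) • e i := by
      rw [hp, ← Finset.sum_sub_distrib]
      apply Finset.sum_congr rfl
      intro i _
      rw [sub_smul]
    rw [h1]
    refine hN (fun i => A u i - A (cvec k hk) i) (u - cvec k hk) 1 zero_le_one ?_ ?_
    · refine ((hA u).sub (hA (cvec k hk))).congr fun m => ?_
      rw [← Finset.sum_sub_distrib]
      apply Finset.sum_congr rfl
      intro i _
      rw [sub_smul]
    · intro i hi
      rw [co_sub, hu, uvec, co_mkE, cvec, co_mkE, useq, cseq]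
      rcases Nat.lt_or_ge i 3 with h | h
      · rw [if_pos h, if_pos h]
        split_ifs
        · norm_num
        · norm_num
      · rw [if_neg (by omega), if_neg (by omega), if_neg]
        · norm_num
        · have : N ≤ max N 3 := le_max_left _ _
          omega
  -- coordinates of p
  have hco : ∀ k (hk : k < 3) (i : ℕ),
      ‖∑ i ∈ Finset.range n, A (cvec k hk) i • e i - cvec k hk‖ ≤ 1 / 10 →
      |co p i - cseq k i| ≤ 11 / 10 := by
    intro k hk i h10
    have h1 := (abs_co_le _ i).trans (hdist k hk)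
    have h2 := (abs_co_le _ i).trans h10
    rw [co_sub] at h1 h2
    have h3 : co (cvec k hk) i = cseq k i := rfl
    rw [h3] at h2
    have : co p i - cseq k i = (co p i - co (∑ i ∈ Finset.range n, A (cvec k hk) i • e i) i)
      + (co (∑ i ∈ Finset.range n, A (cvec k hk) i • e i) i - cseq k i) := by ring
    rw [this]
    refine (abs_add_le _ _).trans ?_
    linarith
  have hc0 := hn0 n (le_max_left _ _)
  have hc1 := hn1 n (le_trans (le_max_left _ _) (le_max_right _ _))
  have hc2 := hn2 n (le_trans (le_max_right _ _) (le_max_right _ _))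
  have hp0 : 4 / 3 - 11 / 10 ≤ co p 0 := by
    have := (abs_le.mp (hco 0 (by norm_num) 0 hc0)).1
    simp [cseq] at this
    linarith
  have hp1 : 4 / 3 - 11 / 10 ≤ co p 1 := by
    have := (abs_le.mp (hco 1 (by norm_num) 1 hc1)).1
    simp [cseq] at this
    linarith
  have hp2 : 4 / 3 - 11 / 10 ≤ co p 2 := by
    have := (abs_le.mp (hco 2 (by norm_num) 2 hc2)).1
    simp [cseq] at this
    linarith
  have hpt : ∀ i, 3 ≤ i → |co p i| ≤ 11 / 10 := by
    intro i hi
    have := hco 0 (by norm_num) i hc0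
    rw [cseq, if_neg (by omega), sub_zero] at this
    exact this
  have hrel := relation p 3
  have htail := abs_tail_le (co p) 3 (11 / 10) hpt
  rw [T_three] at htail
  have := (abs_le.mp htail).1
  simp only [Finset.sum_range_succ, Finset.sum_range_zero, w_zero, w_one, w_two] at hrel
  linarith

end Pool.Agent.BasisConst
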